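import Pool.Agent.Helper89.GP.GoalsA

/-!
# GP-PEEL: the increments in the chamber of the identity are independent
-/

namespace Pool.Agent.Helper96.GP

open Finset MeasureTheory Pool.Agent.Helper89.GP

/-- The chambers are open. -/
lemma isOpen_Ch {n : ℕ} (σ : Equiv.Perm (Fin n)) : IsOpen (Ch σ) := by
  have h : Ch σ = (⋂ a, {x : Fin n → ℝ | 0 < x a}) ∩
      ⋂ a, ⋂ b, ⋂ (_ : σ a < σ b), {x : Fin n → ℝ | x a < x b} := by
    ext x
    simp [Ch]
  rw [h]
  refine IsOpen.inter (isOpen_iInter_of_finite fun a => isOpen_lt continuous_const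
    (continuous_apply a)) (isOpen_iInter_of_finite fun a => isOpen_iInter_of_finite fun b =>
      isOpen_iInter_of_finite fun _ => isOpen_lt (continuous_apply a) (continuous_apply b))

lemma measurableSet_Ch {n : ℕ} (σ : Equiv.Perm (Fin n)) : MeasurableSet (Ch σ) :=
  (isOpen_Ch σ).measurableSet

/-- Membership of a shifted vector. -/
lemma cons_mem {n : ℕ} (r : ℝ) (y : Fin n → ℝ) :
    (Fin.cons r (fun i => r + y i) : Fin (n + 1) → ℝ) ∈ Ch (1 : Equiv.Perm (Fin (n + 1))) ↔
      r ∈ Set.Ioi (0 : ℝ) ∧ y ∈ Ch (1 : Equiv.Perm (Fin n)) := by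
  constructor
  · rintro ⟨h1, h2⟩
    refine ⟨?_, ?_, ?_⟩
    · simpa using h1 0
    · intro i
      have := h2 0 i.succ (by simp)
      simpa using this
    · intro i j hij
      have := h2 i.succ j.succ (by simpa using hij)
      simpa using this
  · rintro ⟨hr, h1, h2⟩
    have hr' : 0 < r := hr
    refine ⟨?_, ?_⟩
    · intro a
      refine Fin.cases ?_ (fun i => ?_) a
      · simpa using hr'
      · simpa using add_pos hr' (h1 i)
    · intro a b
      refine Fin.cases ?_ (fun i => ?_) a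
      · refine Fin.cases ?_ (fun j => ?_) b
        · intro h
          exact absurd h (lt_irrefl _)
        · intro _
          simpa using h1 j
      · refine Fin.cases ?_ (fun j => ?_) b
        · intro h
          exact absurd h (by simp)
        · intro h
          have := h2 i j (by simpa using h)
          simpa using this

/-- PEEL. -/
theorem peel : PeelStmt := by
  intro n Φ hΦ
  set F : (Fin (n + 1) → ℝ) → ENNReal := (Ch (1 : Equiv.Perm (Fin (n + 1)))).indicator Φ with hF
  have hFm : Measurable F := hΦ.indicator (measurableSet_Ch _)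
  rw [← lintegral_indicator (measurableSet_Ch _), ← hF]
  have e := volume_preserving_piFinSuccAbove (fun _ : Fin (n + 1) => ℝ) 0
  have h1 : ∫⁻ x, F x = ∫⁻ p : ℝ × (Fin n → ℝ),
      F ((MeasurableEquiv.piFinSuccAbove (fun _ : Fin (n + 1) => ℝ) 0).symm p) := by
    exact (e.symm.lintegral_comp_emb (MeasurableEquiv.measurableEmbedding _) F).symm
  have h2 : ∀ p : ℝ × (Fin n → ℝ),
      (MeasurableEquiv.piFinSuccAbove (fun _ : Fin (n + 1) => ℝ) 0).symm p =
        (Fin.cons p.1 p.2 : Fin (n + 1) → ℝ) := by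
    intro p
    ext i
    refine Fin.cases ?_ (fun j => ?_) i
    · simp [MeasurableEquiv.piFinSuccAbove, Fin.insertNthEquiv]
    · simp [MeasurableEquiv.piFinSuccAbove, Fin.insertNthEquiv]
  have h3 : ∫⁻ p : ℝ × (Fin n → ℝ),
      F ((MeasurableEquiv.piFinSuccAbove (fun _ : Fin (n + 1) => ℝ) 0).symm p) =
      ∫⁻ r : ℝ, ∫⁻ z : Fin n → ℝ, F (Fin.cons r z : Fin (n + 1) → ℝ) := by
    rw [Measure.volume_eq_prod]
    refine (lintegral_prod (fun p : ℝ × (Fin n → ℝ) =>
      F ((MeasurableEquiv.piFinSuccAbove (fun _ : Fin (n + 1) => ℝ) 0).symm p))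
      (hFm.comp (MeasurableEquiv.measurable _)).aemeasurable).trans ?_
    simp_rw [h2]
  rw [h1, h3, ← lintegral_indicator measurableSet_Ioi]
  refine lintegral_congr fun r => ?_
  have h4 : ∫⁻ z : Fin n → ℝ, F (Fin.cons r z : Fin (n + 1) → ℝ) =
      ∫⁻ y : Fin n → ℝ, F (Fin.cons r (fun i => r + y i) : Fin (n + 1) → ℝ) := by
    exact (lintegral_add_left_eq_self (μ := (volume : Measure (Fin n → ℝ)))
      (fun z => F (Fin.cons r z : Fin (n + 1) → ℝ)) (fun _ => r)).symm
  rw [h4]
  by_cases hr : r ∈ Set.Ioi (0 : ℝ)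
  · rw [Set.indicator_of_mem hr, ← lintegral_indicator (measurableSet_Ch _)]
    refine lintegral_congr fun y => ?_
    by_cases hy : y ∈ Ch (1 : Equiv.Perm (Fin n))
    · rw [Set.indicator_of_mem hy, hF, Set.indicator_of_mem ((cons_mem r y).2 ⟨hr, hy⟩)]
    · rw [Set.indicator_of_notMem hy, hF,
        Set.indicator_of_notMem fun h => hy ((cons_mem r y).1 h).2]
  · rw [Set.indicator_of_notMem hr]
    have : ∀ y : Fin n → ℝ, F (Fin.cons r (fun i => r + y i) : Fin (n + 1) → ℝ) = 0 := by
      intro y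
      rw [hF, Set.indicator_of_notMem fun h => hr ((cons_mem r y).1 h).1]
    simp [this]

end Pool.Agent.Helper96.GP
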