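import Pool.Agent.Helper72.GP.GoalsB

/-!
# Project GP (MP_c9dfb5_co): packet GP-SUMS
-/

set_option autoImplicit false

namespace Pool.Agent.Helper96.GP

open Finset Polynomial
open scoped Polynomial.Bivariate Classical
open Pool.Agent.Helper72.GP

noncomputable section

theorem gd_trans {h : ℕ} {x y z : Pt} (h1 : h ∣ gd x y) (h2 : h ∣ gd y z) : h ∣ gd x z := by
  unfold gd at *
  rw [← Int.natCast_dvd_natCast] at h1 h2 ⊢
  have a1 : (h : ℤ) ∣ x.1 - y.1 := h1.trans (Int.gcd_dvd_left ..)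
  have a2 : (h : ℤ) ∣ x.2 - y.2 := h1.trans (Int.gcd_dvd_right ..)
  have b1 : (h : ℤ) ∣ y.1 - z.1 := h2.trans (Int.gcd_dvd_left ..)
  have b2 : (h : ℤ) ∣ y.2 - z.2 := h2.trans (Int.gcd_dvd_right ..)
  have c1 : (h : ℤ) ∣ x.1 - z.1 := by
    have := dvd_add a1 b1
    simpa using this
  have c2 : (h : ℤ) ∣ x.2 - z.2 := by
    have := dvd_add a2 b2
    simpa using this
  exact Int.dvd_coe_gcd c1 c2

theorem rr_bounds {P : Finset Pt} {h q : ℕ} {x y : Pt} (hy : y ∈ cls P h x) :
    0 ≤ rr P h x q y ∧ rr P h x q y ≤ 1 := by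
  have hy' := hy
  simp only [cls, mem_filter] at hy'
  have hsub : cls P (h * q) y ⊆ cls P h x := by
    intro z hz
    simp only [cls, mem_filter] at hz ⊢
    exact ⟨hz.1, gd_trans hy'.2 ((dvd_mul_right h q).trans hz.2)⟩
  have hmem : y ∈ cls P (h * q) y := by
    simp only [cls, mem_filter]
    exact ⟨hy'.1, by simp [gd]⟩
  have h1 : 1 ≤ (cls P (h * q) y).card := card_pos.mpr ⟨y, hmem⟩
  have h2 : (cls P (h * q) y).card ≤ (cls P h x).card := card_le_card hsub
  have h1' : (1 : ℝ) ≤ ((cls P (h * q) y).card : ℝ) := by exact_mod_cast h1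
  have h2' : ((cls P (h * q) y).card : ℝ) ≤ ((cls P h x).card : ℝ) := by exact_mod_cast h2
  unfold rr
  constructor
  · apply div_nonneg <;> linarith
  · rw [div_le_one (by linarith)]
    linarith

theorem Lam_nonneg (q : ℕ) : 0 ≤ Lam q := ArithmeticFunction.vonMangoldt_nonneg

theorem sums (hD : DYAD) : SUMS := by
  intro P N h x J hN hh hx hF
  obtain ⟨hD1, hD2⟩ := hD
  have hpow : ∀ j : ℕ, (((2 ^ j : ℕ) : ℝ)) ^ 2 = (4 : ℝ) ^ j := by
    intro j
    push_cast
    rw [← pow_mul, mul_comm, pow_mul]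
    norm_num
  have hlog : 0 ≤ Real.log N := Real.log_nonneg (by exact_mod_cast hN)
  constructor
  · calc ∑ y ∈ cls P h x, ∑ q ∈ range (N + 1), Lam q *
          (if ((4 : ℝ) ^ J)⁻¹ ≤ rr P h x q y then (rr P h x q y) ^ ((3 : ℝ) / 4) else 0)
        ≤ ∑ y ∈ cls P h x, ∑ q ∈ range (N + 1), Lam q *
          (∑ j ∈ range (J + 1), (2 : ℝ) ^ (-(3 * ((j : ℝ) - 1)) / 2) *
            min 1 ((4 : ℝ) ^ j * rr P h x q y)) := by
          refine sum_le_sum fun y hy => sum_le_sum fun q _ => ?_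
          refine mul_le_mul_of_nonneg_left ?_ (Lam_nonneg q)
          have hr := rr_bounds (q := q) hy
          split_ifs with hif
          · exact hD1 J _ hif hr.2
          · refine sum_nonneg fun j _ => mul_nonneg (Real.rpow_nonneg (by norm_num) _) ?_
            exact le_min zero_le_one (mul_nonneg (by positivity) hr.1)
      _ = ∑ j ∈ range (J + 1), (2 : ℝ) ^ (-(3 * ((j : ℝ) - 1)) / 2) *
            ∑ y ∈ cls P h x, ∑ q ∈ range (N + 1), Lam q *
              min 1 (((2 ^ j : ℕ) : ℝ) ^ 2 * rr P h x q y) := by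
          simp_rw [mul_sum, hpow]
          have e1 : ∀ y ∈ cls P h x, ∑ q ∈ range (N + 1), ∑ j ∈ range (J + 1), Lam q *
              ((2 : ℝ) ^ (-(3 * ((j : ℝ) - 1)) / 2) * min 1 ((4 : ℝ) ^ j * rr P h x q y)) =
              ∑ j ∈ range (J + 1), ∑ q ∈ range (N + 1), Lam q *
              ((2 : ℝ) ^ (-(3 * ((j : ℝ) - 1)) / 2) * min 1 ((4 : ℝ) ^ j * rr P h x q y)) :=
            fun y _ => sum_comm
          rw [sum_congr rfl e1, sum_comm]
          refine sum_congr rfl fun j _ => sum_congr rfl fun y _ => sum_congr rfl fun q _ => ?_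
          ring
      _ ≤ ∑ j ∈ range (J + 1), (2 : ℝ) ^ (-(3 * ((j : ℝ) - 1)) / 2) *
            (36 * ((2 ^ j : ℕ) : ℝ) * (cls P h x).card * Real.log N) := by
          refine sum_le_sum fun j hj => mul_le_mul_of_nonneg_left ?_
            (Real.rpow_nonneg (by norm_num) _)
          exact hF j (by simpa [Nat.lt_succ_iff] using hj)
      _ = (∑ j ∈ range (J + 1), (2 : ℝ) ^ (-(3 * ((j : ℝ) - 1)) / 2) * (36 * (2 : ℝ) ^ j)) *
            ((cls P h x).card * Real.log N) := by
          rw [sum_mul]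
          refine sum_congr rfl fun j _ => ?_
          push_cast
          ring
      _ ≤ 349 * ((cls P h x).card * Real.log N) :=
          mul_le_mul_of_nonneg_right (hD2 J) (by positivity)
      _ = 349 * (cls P h x).card * Real.log N := by ring
  · calc ∑ y ∈ cls P h x, ∑ q ∈ range (N + 1), Lam q *
          (if rr P h x q y < ((4 : ℝ) ^ J)⁻¹ then rr P h x q y else 0)
        ≤ ∑ y ∈ cls P h x, ∑ q ∈ range (N + 1), ((4 : ℝ) ^ J)⁻¹ *
            (Lam q * min 1 (((2 ^ J : ℕ) : ℝ) ^ 2 * rr P h x q y)) := by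
          refine sum_le_sum fun y hy => sum_le_sum fun q _ => ?_
          have hr := rr_bounds (q := q) hy
          have h4 : (0 : ℝ) < (4 : ℝ) ^ J := by positivity
          rw [hpow]
          have hm : (if rr P h x q y < ((4 : ℝ) ^ J)⁻¹ then rr P h x q y else 0) ≤
              ((4 : ℝ) ^ J)⁻¹ * min 1 ((4 : ℝ) ^ J * rr P h x q y) := by
            split_ifs with hif
            · have h5 : (4 : ℝ) ^ J * rr P h x q y ≤ 1 := by
                have := mul_le_mul_of_nonneg_left hif.le h4.le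
                rwa [mul_inv_cancel₀ h4.ne'] at this
              rw [min_eq_right h5, ← mul_assoc, inv_mul_cancel₀ h4.ne', one_mul]
            · refine mul_nonneg (by positivity) (le_min zero_le_one ?_)
              exact mul_nonneg h4.le hr.1
          calc Lam q * (if rr P h x q y < ((4 : ℝ) ^ J)⁻¹ then rr P h x q y else 0)
              ≤ Lam q * (((4 : ℝ) ^ J)⁻¹ * min 1 ((4 : ℝ) ^ J * rr P h x q y)) :=
                mul_le_mul_of_nonneg_left hm (Lam_nonneg q)
            _ = _ := by ring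
      _ = ((4 : ℝ) ^ J)⁻¹ * ∑ y ∈ cls P h x, ∑ q ∈ range (N + 1),
            Lam q * min 1 (((2 ^ J : ℕ) : ℝ) ^ 2 * rr P h x q y) := by
          simp_rw [mul_sum]
      _ ≤ ((4 : ℝ) ^ J)⁻¹ * (36 * ((2 ^ J : ℕ) : ℝ) * (cls P h x).card * Real.log N) :=
          mul_le_mul_of_nonneg_left (hF J le_rfl) (by positivity)
      _ = 36 * ((2 : ℝ) ^ J)⁻¹ * (cls P h x).card * Real.log N := by
          have h22 : (4 : ℝ) ^ J = (2 : ℝ) ^ J * (2 : ℝ) ^ J := by
            rw [← mul_pow]; norm_num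
          have h2 : (2 : ℝ) ^ J ≠ 0 := by positivity
          rw [h22]
          push_cast
          field_simp

end

end Pool.Agent.Helper96.GP
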